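import Mathlib

set_option autoImplicit false

/-!
# The gated cube

`Car I` is the set of pairs `(z, w)` with `z : I → [0,1]`, and `w i j ⊆ [0,1]` having at most one
element, such that `a ∈ w i j` implies `z i ≤ a ∨ z j ≤ a`.  It is a compact Hausdorff space
with a binary closed subbase.
-/

namespace Pool.Agent.H36.Wall

open Set TopologicalSpace
open scoped Topology

abbrev UI : Type := Set.Icc (0:ℝ) 1

/-- The ambient product. -/
abbrev Amb (I : Type) : Type := (I → UI) × (I → I → UI → Bool)

/-- The gated cube as a subset of the ambient product. -/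
def Car (I : Type) : Set (Amb I) :=
  {x | (∀ i j a b, x.2 i j a = true → x.2 i j b = true → a = b) ∧
    ∀ i j a, x.2 i j a = true → x.1 i ≤ a ∨ x.1 j ≤ a}

theorem isClosed_car (I : Type) : IsClosed (Car I) := by
  have hclop : ∀ (i j : I) (a : UI), IsOpen {x : Amb I | x.2 i j a = true} := by
    intro i j a
    have hc : Continuous fun x : Amb I => x.2 i j a := by fun_prop
    exact (isOpen_discrete ({true} : Set Bool)).preimage hc
  have himp : ∀ (i j : I) (a : UI) (Q : Amb I → Prop), IsClosed {x | Q x} →
      IsClosed {x : Amb I | x.2 i j a = true → Q x} := by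
    intro i j a Q hQ
    have : {x : Amb I | x.2 i j a = true → Q x} = {x : Amb I | x.2 i j a = true}ᶜ ∪ {x | Q x} := by
      ext x
      simp only [mem_union, mem_compl_iff, mem_ofPred_eq]
      tauto
    rw [this]
    exact (hclop i j a).isClosed_compl.union hQ
  have h1 : IsClosed {x : Amb I | ∀ i j a b, x.2 i j a = true → x.2 i j b = true → a = b} := by
    simp only [Set.ofPred_forall]
    refine isClosed_iInter fun i => isClosed_iInter fun j => isClosed_iInter fun a =>
      isClosed_iInter fun b => ?_
    exact himp i j a (fun x => x.2 i j b = true → a = b) (himp i j b _ isClosed_const)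
  have h2 : IsClosed {x : Amb I | ∀ i j a, x.2 i j a = true → x.1 i ≤ a ∨ x.1 j ≤ a} := by
    simp only [Set.ofPred_forall]
    refine isClosed_iInter fun i => isClosed_iInter fun j => isClosed_iInter fun a => ?_
    refine himp i j a _ ?_
    have e1 : IsClosed {x : Amb I | x.1 i ≤ a} := isClosed_le (by fun_prop) continuous_const
    have e2 : IsClosed {x : Amb I | x.1 j ≤ a} := isClosed_le (by fun_prop) continuous_const
    exact e1.union e2
  exact h1.inter h2

/-- The gated cube. -/
abbrev X (I : Type) : Type := Car I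

instance (I : Type) : CompactSpace (X I) :=
  isCompact_iff_compactSpace.1 (isClosed_car I).isCompact

/-- coordinates -/
def zc {I : Type} (x : X I) (i : I) : UI := x.1.1 i
def wc {I : Type} (x : X I) (i j : I) (a : UI) : Bool := x.1.2 i j a

theorem X_ext {I : Type} {x y : X I} (h1 : ∀ i, zc x i = zc y i)
    (h2 : ∀ i j a, wc x i j a = wc y i j a) : x = y := by
  apply Subtype.ext
  apply Prod.ext
  · funext i; exact h1 i
  · funext i j a; exact h2 i j a

theorem wc_uniq {I : Type} (x : X I) {i j : I} {a b : UI} (ha : wc x i j a = true)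
    (hb : wc x i j b = true) : a = b := x.2.1 i j a b ha hb

theorem wc_gate {I : Type} (x : X I) {i j : I} {a : UI} (ha : wc x i j a = true) :
    zc x i ≤ a ∨ zc x j ≤ a := x.2.2 i j a ha

theorem continuous_zc {I : Type} (i : I) : Continuous fun x : X I => zc x i := by
  unfold zc; fun_prop

theorem continuous_wc {I : Type} (i j : I) (a : UI) : Continuous fun x : X I => wc x i j a := by
  unfold wc; fun_prop

/-- Continuity into the gated cube is coordinatewise. -/
theorem continuous_to_X {I Y : Type} {t : TopologicalSpace Y} {f : Y → X I}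
    (h1 : ∀ i, Continuous fun y => zc (f y) i)
    (h2 : ∀ i j a, Continuous fun y => wc (f y) i j a) : Continuous f := by
  apply Continuous.subtype_mk (f := fun y => (f y).1) (h := ?_) (hp := fun y => (f y).2) |>.congr
  · intro y; rfl
  · apply Continuous.prodMk (f := fun y => (f y).1.1) (g := fun y => (f y).1.2)
    · exact continuous_pi fun i => h1 i
    · exact continuous_pi fun i => continuous_pi fun j => continuous_pi fun a => h2 i j a

/-! ### The subbase -/

def sLe {I : Type} (i : I) (s : UI) : Set (X I) := {x | zc x i ≤ s}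
def sGe {I : Type} (i : I) (s : UI) : Set (X I) := {x | s ≤ zc x i}
def sNe {I : Type} (i j : I) (a : UI) : Set (X I) := {x | wc x i j a = false}
def sQ1 {I : Type} (i j : I) (a : UI) : Set (X I) := {x | wc x i j a = true ∧ zc x i ≤ a}
def sQ2 {I : Type} (i j : I) (a : UI) : Set (X I) := {x | wc x i j a = true ∧ zc x j ≤ a}

/-- The binary subbase. -/
def PB (I : Type) : Set (Set (X I)) :=
  {A | (∃ i s, A = sLe i s) ∨ (∃ i s, A = sGe i s) ∨ (∃ i j a, A = sNe i j a) ∨
    (∃ i j a, A = sQ1 i j a) ∨ ∃ i j a, A = sQ2 i j a}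

theorem isClosed_sLe {I : Type} (i : I) (s : UI) : IsClosed (sLe i s) :=
  isClosed_le (continuous_zc i) continuous_const

theorem isClosed_sGe {I : Type} (i : I) (s : UI) : IsClosed (sGe i s) :=
  isClosed_le continuous_const (continuous_zc i)

theorem isClopen_w {I : Type} (i j : I) (a : UI) (b : Bool) :
    IsClopen {x : X I | wc x i j a = b} :=
  (isClopen_discrete ({b} : Set Bool)).preimage (continuous_wc i j a)

theorem isClosed_of_mem_PB {I : Type} {A : Set (X I)} (hA : A ∈ PB I) : IsClosed A := by
  rcases hA with ⟨i, s, rfl⟩ | ⟨i, s, rfl⟩ | ⟨i, j, a, rfl⟩ | ⟨i, j, a, rfl⟩ | ⟨i, j, a, rfl⟩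
  · exact isClosed_sLe i s
  · exact isClosed_sGe i s
  · exact (isClopen_w i j a false).1
  · exact (isClopen_w i j a true).1.inter (isClosed_sLe i a)
  · exact (isClopen_w i j a true).1.inter (isClosed_sLe j a)

theorem top_eq_PB (I : Type) :
    (instTopologicalSpaceSubtype : TopologicalSpace (X I)) =
      TopologicalSpace.generateFrom {U : Set (X I) | Uᶜ ∈ PB I} := by
  apply le_antisymm
  · apply le_generateFrom
    intro U hU
    have := (isClosed_of_mem_PB hU).isOpen_compl
    rwa [compl_compl] at this
  · have hop : ∀ A ∈ PB I, IsOpen[TopologicalSpace.generateFrom {U : Set (X I) | Uᶜ ∈ PB I}] Aᶜ := by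
      intro A hA
      apply TopologicalSpace.isOpen_generateFrom_of_mem
      show Aᶜᶜ ∈ PB I
      rwa [compl_compl]
    have hid : Continuous[TopologicalSpace.generateFrom {U : Set (X I) | Uᶜ ∈ PB I},
        instTopologicalSpaceSubtype] (id : X I → X I) := by
      let _ : TopologicalSpace (X I) := TopologicalSpace.generateFrom {U : Set (X I) | Uᶜ ∈ PB I}
      apply continuous_to_X
      · intro i
        rw [OrderTopology.continuous_iff]
        intro s
        constructor
        · have := hop (sLe i s) (Or.inl ⟨i, s, rfl⟩)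
          convert this using 1
          ext x; simp [sLe, mem_preimage]
        · have := hop (sGe i s) (Or.inr (Or.inl ⟨i, s, rfl⟩))
          convert this using 1
          ext x; simp [sGe, mem_preimage]
      · intro i j a
        rw [continuous_discrete_rng]
        intro b
        cases b
        · have h1 := hop (sQ1 i j a) (Or.inr (Or.inr (Or.inr (Or.inl ⟨i, j, a, rfl⟩))))
          have h2 := hop (sQ2 i j a) (Or.inr (Or.inr (Or.inr (Or.inr ⟨i, j, a, rfl⟩))))
          convert IsOpen.inter h1 h2 using 1
          ext x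
          simp only [mem_preimage, id, mem_singleton_iff, mem_inter_iff, mem_compl_iff, sQ1, sQ2,
            mem_ofPred_eq]
          constructor
          · intro h; simp [h]
          · rintro ⟨h1, h2⟩
            by_contra hne
            have ht : wc x i j a = true := by simpa using hne
            rcases wc_gate x ht with h | h
            · exact h1 ⟨ht, h⟩
            · exact h2 ⟨ht, h⟩
        · have h1 := hop (sNe i j a) (Or.inr (Or.inr (Or.inl ⟨i, j, a, rfl⟩)))
          convert h1 using 1
          ext x; simp [sNe, mem_preimage]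
    exact continuous_id_iff_le.1 hid

theorem binary_PB (I : Type) (L : Set (Set (X I))) (hL : L ⊆ PB I)
    (hlink : ∀ A ∈ L, ∀ B ∈ L, (A ∩ B).Nonempty) : (⋂₀ L).Nonempty := by
  classical
  -- lower bounds
  let z : I → UI := fun i => sSup {s | sGe i s ∈ L}
  let w : I → I → UI → Bool := fun i j a => decide (sQ1 i j a ∈ L ∨ sQ2 i j a ∈ L)
  have hw : ∀ i j a, w i j a = true ↔ (sQ1 i j a ∈ L ∨ sQ2 i j a ∈ L) := by
    intro i j a; simp [w]
  have hzle : ∀ (i : I) (a : UI) (A : Set (X I)), A ∈ L → A ⊆ sLe i a → z i ≤ a := by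
    intro i a A hA hAs
    apply sSup_le
    intro s hs
    obtain ⟨x, hx1, hx2⟩ := hlink _ hs _ hA
    exact le_trans hx1 (hAs hx2)
  have hwsub : ∀ i j a, w i j a = true → ∃ A ∈ L, A ⊆ {x | wc x i j a = true} := by
    intro i j a h
    rcases (hw i j a).1 h with h | h
    · exact ⟨_, h, fun x hx => hx.1⟩
    · exact ⟨_, h, fun x hx => hx.1⟩
  have hmem : ((z, w) : Amb I) ∈ Car I := by
    constructor
    · intro i j a b ha hb
      obtain ⟨A, hA, hA'⟩ := hwsub i j a ha
      obtain ⟨B, hB, hB'⟩ := hwsub i j b hb
      obtain ⟨x, hx1, hx2⟩ := hlink _ hA _ hB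
      exact wc_uniq x (hA' hx1) (hB' hx2)
    · intro i j a ha
      rcases (hw i j a).1 ha with h | h
      · exact Or.inl (hzle i a _ h fun x hx => hx.2)
      · exact Or.inr (hzle j a _ h fun x hx => hx.2)
  refine ⟨⟨(z, w), hmem⟩, ?_⟩
  intro A hA
  rcases hL hA with ⟨i, s, rfl⟩ | ⟨i, s, rfl⟩ | ⟨i, j, a, rfl⟩ | ⟨i, j, a, rfl⟩ | ⟨i, j, a, rfl⟩
  · exact hzle i s _ hA fun x hx => hx
  · exact le_sSup (show s ∈ {s | sGe i s ∈ L} from hA)
  · show w i j a = false
    by_contra hne
    have ht : w i j a = true := by simpa using hne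
    obtain ⟨B, hB, hB'⟩ := hwsub i j a ht
    obtain ⟨x, hx1, hx2⟩ := hlink _ hA _ hB
    have h1 : wc x i j a = false := hx1
    have h2 : wc x i j a = true := hB' hx2
    rw [h1] at h2
    exact Bool.false_ne_true h2
  · exact ⟨(hw i j a).2 (Or.inl hA), hzle i a _ hA fun x hx => hx.2⟩
  · exact ⟨(hw i j a).2 (Or.inr hA), hzle j a _ hA fun x hx => hx.2⟩

end Pool.Agent.H36.Wall
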