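import Pool.Agent.H36.Wall.Comb
import Pool.Agent.H36.Wall.Space

set_option autoImplicit false

/-!
# Amalgamation in the gated cube
-/

namespace Pool.Agent.H36.Wall

open Cardinal Set TopologicalSpace
open scoped Topology

/-! ### colours -/

theorem exists_closing_color {I J B : Type} (μ : Cardinal.{0}) (hμ : Cardinal.continuum ≤ μ)
    (hB : #B ≤ μ) (e : J → B → I) (x : J → X I) : ∃ M : Set I, #M ≤ 2 ^ μ ∧ ∀ α, ∃ β,
      (∀ ξ η, e β ξ = e β η ↔ e α ξ = e α η) ∧
      (∀ ξ, zc (x β) (e β ξ) = zc (x α) (e α ξ)) ∧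
      (∀ ξ η a, wc (x β) (e β ξ) (e β η) a = wc (x α) (e α ξ) (e α η) a) ∧
      (∀ ξ, e β ξ ∈ M) ∧ ∀ ξ, e α ξ ∈ M → e β ξ = e α ξ := by
  let C : Type := (B → B → Prop) × (B → UI) × (B → B → UI → Bool)
  let col : J → C := fun α => (fun ξ η => e α ξ = e α η, fun ξ => zc (x α) (e α ξ),
    fun ξ η a => wc (x α) (e α ξ) (e α η) a)
  have hω : ℵ₀ ≤ μ := aleph0_le_continuum.trans hμ
  have hμ2 : μ ≤ 2 ^ μ := (Cardinal.cantor μ).le
  have hκ : ℵ₀ ≤ (2 : Cardinal) ^ μ := hω.trans hμ2
  have hpow : ∀ ν : Cardinal.{0}, ν ≤ μ → ((2 : Cardinal) ^ μ) ^ ν ≤ 2 ^ μ := by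
    intro ν hν
    rw [← Cardinal.power_mul]
    apply Cardinal.power_le_power_left two_ne_zero
    calc μ * ν ≤ μ * μ := by gcongr
      _ = μ := Cardinal.mul_eq_self hω
  have hne : ((2 : Cardinal) ^ μ) ≠ 0 := (lt_of_lt_of_le Cardinal.aleph0_pos hκ).ne'
  have hUI : #UI ≤ μ := by
    refine le_trans ?_ hμ
    rw [← Cardinal.mk_real]
    exact Cardinal.mk_set_le _
  have hBB : #(B → UI → Bool) ≤ 2 ^ μ := by
    rw [Cardinal.mk_arrow, Cardinal.mk_arrow]
    simp only [Cardinal.lift_id, Cardinal.mk_bool]
    refine le_trans (Cardinal.power_le_power_right (Cardinal.power_le_power_left two_ne_zero hUI)) ?_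
    exact hpow _ hB
  have hC : #C ≤ 2 ^ μ := by
    show #((B → B → Prop) × (B → UI) × (B → B → UI → Bool)) ≤ 2 ^ μ
    rw [Cardinal.mk_prod, Cardinal.mk_prod]
    simp only [Cardinal.lift_id]
    have h1 : #(B → B → Prop) ≤ 2 ^ μ := by
      rw [Cardinal.mk_arrow, Cardinal.mk_arrow]
      simp only [Cardinal.lift_id, Cardinal.mk_Prop]
      refine le_trans (Cardinal.power_le_power_right
        (Cardinal.power_le_power_left two_ne_zero hB)) ?_
      exact hpow _ hB
    have h2 : #(B → UI) ≤ 2 ^ μ := by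
      rw [Cardinal.mk_arrow]
      simp only [Cardinal.lift_id]
      refine le_trans (Cardinal.power_le_power_right (hUI.trans hμ2)) ?_
      exact hpow _ hB
    have h3 : #(B → B → UI → Bool) ≤ 2 ^ μ := by
      rw [Cardinal.mk_arrow]
      simp only [Cardinal.lift_id]
      refine le_trans (Cardinal.power_le_power_right hBB) ?_
      exact hpow _ hB
    calc #(B → B → Prop) * (#(B → UI) * #(B → B → UI → Bool))
        ≤ 2 ^ μ * (2 ^ μ * 2 ^ μ) := by gcongr
      _ = 2 ^ μ := by rw [Cardinal.mul_eq_self hκ, Cardinal.mul_eq_self hκ]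
  obtain ⟨M, hM, hM2⟩ := exists_closing_set e col (2 ^ μ) hκ hC (hpow _ hB)
  refine ⟨M, hM, fun α => ?_⟩
  obtain ⟨β, hcol, h1, h2⟩ := hM2 α
  refine ⟨β, ?_, ?_, ?_, h1, h2⟩
  · intro ξ η
    have := congrArg (fun c : C => c.1 ξ η) hcol
    exact this.to_iff
  · intro ξ
    exact congrArg (fun c : C => c.2.1 ξ) hcol
  · intro ξ η a
    exact congrArg (fun c : C => c.2.2 ξ η a) hcol

/-! ### the common index map of two coherent enumerations -/

theorem exists_tau {I B : Type} (e e' : B → I) (hpat : ∀ ξ η, e' ξ = e' η ↔ e ξ = e η)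
    (hcoh : ∀ ξ η, e ξ = e' η → e' ξ = e ξ) :
    ∃ τ : I → Option B, (∀ ξ₀, ∃ ξ, τ (e ξ₀) = some ξ ∧ e ξ = e ξ₀) ∧
      ∀ ξ₀, ∃ ξ, τ (e' ξ₀) = some ξ ∧ e' ξ = e' ξ₀ := by
  classical
  refine ⟨fun k => if h : ∃ ξ, e ξ = k ∨ e' ξ = k then some h.choose else none, ?_, ?_⟩
  · intro ξ₀
    have h : ∃ ξ, e ξ = e ξ₀ ∨ e' ξ = e ξ₀ := ⟨ξ₀, Or.inl rfl⟩
    refine ⟨h.choose, dif_pos h, ?_⟩
    rcases h.choose_spec with h1 | h1
    · exact h1
    · have h2 := hcoh ξ₀ _ h1.symm
      exact (hpat _ _).1 (h1.trans h2.symm)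
  · intro ξ₀
    have h : ∃ ξ, e ξ = e' ξ₀ ∨ e' ξ = e' ξ₀ := ⟨ξ₀, Or.inr rfl⟩
    refine ⟨h.choose, dif_pos h, ?_⟩
    rcases h.choose_spec with h1 | h1
    · exact (hcoh _ ξ₀ h1).trans h1
    · exact h1

/-! ### pulling back along a map of indices -/

/-- The raw pull-back. -/
noncomputable def pullA {I : Type} (ρ : I → Option I) (x : X I) : Amb I :=
  (fun k => (ρ k).elim 0 (zc x), fun k l a => (ρ k).elim false fun k' => (ρ l).elim false fun l' =>
    wc x k' l' a)

theorem pullA_mem {I : Type} (ρ : I → Option I) (x : X I) : pullA ρ x ∈ Car I := by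
  constructor
  · intro i j a b ha hb
    simp only [pullA] at ha hb
    cases hi : ρ i with
    | none => simp [hi] at ha
    | some i' =>
      cases hj : ρ j with
      | none => simp [hi, hj] at ha
      | some j' =>
        simp only [hi, hj, Option.elim_some] at ha hb
        exact wc_uniq x ha hb
  · intro i j a ha
    simp only [pullA] at ha ⊢
    cases hi : ρ i with
    | none => simp [hi] at ha
    | some i' =>
      cases hj : ρ j with
      | none => simp [hi, hj] at ha
      | some j' =>
        simp only [hi, hj, Option.elim_some] at ha ⊢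
        exact wc_gate x ha

noncomputable def pull {I : Type} (ρ : I → Option I) (x : X I) : X I := ⟨pullA ρ x, pullA_mem ρ x⟩

theorem zc_pull {I : Type} (ρ : I → Option I) (x : X I) (k : I) :
    zc (pull ρ x) k = (ρ k).elim 0 (zc x) := rfl

theorem wc_pull {I : Type} (ρ : I → Option I) (x : X I) (k l : I) (a : UI) :
    wc (pull ρ x) k l a = (ρ k).elim false fun k' => (ρ l).elim false fun l' => wc x k' l' a := rfl

theorem continuous_pull {I : Type} (ρ : I → Option I) : Continuous (pull ρ) := by
  apply continuous_to_X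
  · intro i
    simp only [zc_pull]
    cases ρ i with
    | none => exact continuous_const
    | some i' => exact continuous_zc i'
  · intro i j a
    simp only [wc_pull]
    cases ρ i with
    | none => exact continuous_const
    | some i' =>
      cases ρ j with
      | none => exact continuous_const
      | some j' => exact continuous_wc i' j' a

/-! ### lowering a coordinate -/

open Classical in
/-- Lower the coordinate `l` to be at most `c`. -/
noncomputable def lowA {I : Type} (l : I) (c : UI) (x : X I) : Amb I :=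
  (fun k => if k = l then min c (zc x k) else zc x k, fun i j a => wc x i j a)

theorem lowA_le {I : Type} (l : I) (c : UI) (x : X I) (k : I) : (lowA l c x).1 k ≤ zc x k := by
  simp only [lowA]
  split_ifs
  · exact min_le_right _ _
  · exact le_rfl

theorem lowA_mem {I : Type} (l : I) (c : UI) (x : X I) : lowA l c x ∈ Car I := by
  constructor
  · intro i j a b ha hb
    exact wc_uniq x ha hb
  · intro i j a ha
    rcases wc_gate x ha with h | h
    · exact Or.inl ((lowA_le l c x i).trans h)
    · exact Or.inr ((lowA_le l c x j).trans h)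

noncomputable def low {I : Type} (l : I) (c : UI) (x : X I) : X I := ⟨lowA l c x, lowA_mem l c x⟩

open Classical in
theorem zc_low {I : Type} (l : I) (c : UI) (x : X I) (k : I) :
    zc (low l c x) k = if k = l then min c (zc x k) else zc x k := rfl

theorem wc_low {I : Type} (l : I) (c : UI) (x : X I) (i j : I) (a : UI) :
    wc (low l c x) i j a = wc x i j a := rfl

theorem continuous_low {I : Type} (l : I) :
    Continuous fun p : UI × X I => low l p.1 p.2 := by
  apply continuous_to_X
  · intro i
    simp only [zc_low]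
    split_ifs with h
    · exact continuous_fst.min ((continuous_zc i).comp continuous_snd)
    · exact (continuous_zc i).comp continuous_snd
  · intro i j a
    simp only [wc_low]
    exact (continuous_wc i j a).comp continuous_snd

/-! ### setting a gate -/

open Classical in
noncomputable def gateA {I : Type} (g h : I) (c : UI) (x : X I) : Amb I :=
  (fun k => zc x k, fun i j a => if i = g ∧ j = h then decide (a = c) else wc x i j a)

theorem gateA_mem {I : Type} (g h : I) (c : UI) (x : X I) (hx : zc x g ≤ c ∨ zc x h ≤ c) :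
    gateA g h c x ∈ Car I := by
  constructor
  · intro i j a b ha hb
    simp only [gateA] at ha hb
    split_ifs at ha hb with hij
    · simp only [decide_eq_true_eq] at ha hb
      rw [ha, hb]
    · exact wc_uniq x ha hb
  · intro i j a ha
    simp only [gateA] at ha ⊢
    split_ifs at ha with hij
    · simp only [decide_eq_true_eq] at ha
      rw [hij.1, hij.2, ha]
      exact hx
    · exact wc_gate x ha

/-- Pull back, lower the coordinate `l`, and set the gate at `(g, h)` to the value `c`. -/
noncomputable def glue {I : Type} (ρ : I → Option I) (l g h : I) (c : UI) (hl : l = g ∨ l = h)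
    (x : X I) : X I :=
  ⟨gateA g h c (low l c (pull ρ x)), gateA_mem g h c _ (by
    have : zc (low l c (pull ρ x)) l ≤ c := by
      rw [zc_low, if_pos rfl]; exact min_le_left _ _
    rcases hl with rfl | rfl
    · exact Or.inl this
    · exact Or.inr this)⟩

open Classical in
theorem zc_glue {I : Type} (ρ : I → Option I) (l g h : I) (c : UI) (hl : l = g ∨ l = h)
    (x : X I) (k : I) : zc (glue ρ l g h c hl x) k =
      if k = l then min c ((ρ k).elim 0 (zc x)) else (ρ k).elim 0 (zc x) := rfl

open Classical in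
theorem wc_glue {I : Type} (ρ : I → Option I) (l g h : I) (c : UI) (hl : l = g ∨ l = h)
    (x : X I) (i j : I) (a : UI) : wc (glue ρ l g h c hl x) i j a =
      if i = g ∧ j = h then decide (a = c) else
        (ρ i).elim false fun i' => (ρ j).elim false fun j' => wc x i' j' a := rfl

theorem continuous_glue {I : Type} (ρ : I → Option I) (l g h : I) (c : UI) (hl : l = g ∨ l = h) :
    Continuous (glue ρ l g h c hl) := by
  apply continuous_to_X
  · intro i
    simp only [zc_glue]
    have h0 : Continuous fun x : X I => (ρ i).elim 0 (zc x) := by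
      cases ρ i with
      | none => exact continuous_const
      | some i' => exact continuous_zc i'
    split_ifs with hi
    · exact continuous_const.min h0
    · exact h0
  · intro i j a
    simp only [wc_glue]
    split_ifs with hij
    · exact continuous_const
    · cases ρ i with
      | none => exact continuous_const
      | some i' =>
        cases ρ j with
        | none => exact continuous_const
        | some j' => exact continuous_wc i' j' a

/-! ### determined sets -/

/-- `U` is determined by the coordinates in `S`. -/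
def Det {I : Type} (S : Set I) (U : Set (X I)) : Prop :=
  ∀ x y : X I, (∀ k ∈ S, zc x k = zc y k) → (∀ k ∈ S, ∀ l ∈ S, ∀ a, wc x k l a = wc y k l a) →
    x ∈ U → y ∈ U

theorem Det.mono {I : Type} {S S' : Set I} {U : Set (X I)} (h : Det S U) (hS : S ⊆ S') :
    Det S' U := fun x y h1 h2 hx =>
  h x y (fun k hk => h1 k (hS hk)) (fun k hk l hl a => h2 k (hS hk) l (hS hl) a) hx

theorem Det.compl {I : Type} {S : Set I} {U : Set (X I)} (h : Det S U) : Det S Uᶜ :=
  fun x y h1 h2 hx hy => hx (h y x (fun k hk => (h1 k hk).symm)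
    (fun k hk l hl a => (h2 k hk l hl a).symm) hy)

theorem det_PB {I : Type} {A : Set (X I)} (hA : A ∈ PB I) : ∃ S : Set I, S.Countable ∧ Det S A := by
  rcases hA with ⟨i, s, rfl⟩ | ⟨i, s, rfl⟩ | ⟨i, j, a, rfl⟩ | ⟨i, j, a, rfl⟩ | ⟨i, j, a, rfl⟩
  · refine ⟨{i}, Set.countable_singleton i, ?_⟩
    intro x y h1 h2 hx
    show zc y i ≤ s
    rw [← h1 i rfl]; exact hx
  · refine ⟨{i}, Set.countable_singleton i, ?_⟩
    intro x y h1 h2 hx
    show s ≤ zc y i
    rw [← h1 i rfl]; exact hx
  · refine ⟨{i, j}, (Set.toFinite _).countable, ?_⟩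
    intro x y h1 h2 hx
    show wc y i j a = false
    rw [← h2 i (by simp) j (by simp)]; exact hx
  · refine ⟨{i, j}, (Set.toFinite _).countable, ?_⟩
    intro x y h1 h2 hx
    show wc y i j a = true ∧ zc y i ≤ a
    rw [← h2 i (by simp) j (by simp), ← h1 i (by simp)]; exact hx
  · refine ⟨{i, j}, (Set.toFinite _).countable, ?_⟩
    intro x y h1 h2 hx
    show wc y i j a = true ∧ zc y j ≤ a
    rw [← h2 i (by simp) j (by simp), ← h1 j (by simp)]; exact hx

theorem exists_det_nhd {I : Type} [Nonempty I] {U : Set (X I)} (hU : IsOpen U) {x : X I}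
    (hx : x ∈ U) : ∃ V : Set (X I), IsOpen V ∧ x ∈ V ∧ V ⊆ U ∧ ∃ e : ℕ → I, Det (Set.range e) V := by
  have hb := TopologicalSpace.isTopologicalBasis_of_subbasis (top_eq_PB I)
  obtain ⟨V, hV, hxV, hVU⟩ := hb.exists_subset_of_mem_open hx hU
  refine ⟨V, hb.isOpen hV, hxV, hVU, ?_⟩
  obtain ⟨f, ⟨hf, hfs⟩, rfl⟩ := hV
  have hdet : ∀ W ∈ f, ∃ S : Set I, S.Countable ∧ Det S W := by
    intro W hW
    obtain ⟨S, hS, hd⟩ := det_PB (hfs hW)
    refine ⟨S, hS, ?_⟩
    have := hd.compl
    rwa [compl_compl] at this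
  choose! S hS hd using hdet
  obtain ⟨i0⟩ := ‹Nonempty I›
  have hc : (insert i0 (⋃ W ∈ f, S W)).Countable :=
    (Set.Countable.biUnion hf.countable hS).insert i0
  obtain ⟨e, he⟩ := hc.exists_eq_range ⟨i0, Set.mem_insert _ _⟩
  refine ⟨e, ?_⟩
  rw [← he]
  intro x y h1 h2 hx W hW
  refine (hd W hW).mono ?_ x y h1 h2 (hx W hW)
  exact (Set.subset_biUnion_of_mem (u := S) hW).trans (Set.subset_insert _ _)

end Pool.Agent.H36.Wall
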