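import Mathlib

set_option autoImplicit false

/-!
# A closing-off lemma

A family `e α : B → I` of maps, coloured by `col α : C`.  There is a set `M` of size at most `κ`
such that each `α` has a partner `β` of the same colour with range inside `M` and which agrees with
`e α` wherever `e α` takes a value in `M`.
-/

namespace Pool.Agent.H36.Wall

open Cardinal Set

theorem exists_closing_set {J I B C : Type} (e : J → B → I) (col : J → C) (κ : Cardinal.{0})
    (hκ : ℵ₀ ≤ κ) (hC : #C ≤ κ) (hB : κ ^ #B ≤ κ) :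
    ∃ M : Set I, #M ≤ κ ∧ ∀ α : J, ∃ β : J, col β = col α ∧ (∀ ξ, e β ξ ∈ M) ∧
      ∀ ξ, e α ξ ∈ M → e β ξ = e α ξ := by
  classical
  rcases isEmpty_or_nonempty J with hJ | ⟨⟨j0⟩⟩
  · exact ⟨∅, by simp, fun α => (IsEmpty.false α).elim⟩
  let G : (B → Option I) → C → J := fun π c =>
    if h : ∃ β, col β = c ∧ ∀ ξ i, π ξ = some i → e β ξ = i then h.choose else j0
  let A : Type := C × B × Set B
  let bt : A → Type := fun a => a.2.2
  let stp : (Σ a : A, bt a → I) → I := fun p =>
    e (G (fun b => if h : b ∈ p.1.2.2 then some (p.2 ⟨b, h⟩) else none) p.1.1) p.1.2.1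
  let ev : WType bt → I := WType.elim I stp
  have hcardW : #(WType bt) ≤ κ := by
    apply WType.cardinalMk_le_of_le
    have hBκ : #B ≤ κ := by
      calc #B ≤ 2 ^ #B := (Cardinal.cantor _).le
        _ ≤ κ ^ #B := Cardinal.power_le_power_right ((Cardinal.natCast_lt_aleph0 (n := 2)).le.trans hκ)
        _ ≤ κ := hB
    have h2B : (2 : Cardinal) ^ #B ≤ κ :=
      (Cardinal.power_le_power_right ((Cardinal.natCast_lt_aleph0 (n := 2)).le.trans hκ)).trans hB
    have hκ0 : κ ≠ 0 := (lt_of_lt_of_le Cardinal.aleph0_pos hκ).ne'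
    calc (Cardinal.sum fun a : A => κ ^ #(bt a))
        ≤ Cardinal.sum fun _ : A => κ := by
          apply Cardinal.sum_le_sum
          intro a
          exact (Cardinal.power_le_power_left hκ0 (Cardinal.mk_set_le a.2.2)).trans hB
      _ = #A * κ := Cardinal.sum_const' _ _
      _ ≤ κ * κ := by
          apply mul_le_mul_left
          show #(C × B × Set B) ≤ κ
          rw [Cardinal.mk_prod, Cardinal.mk_prod]
          simp only [Cardinal.lift_id, Cardinal.mk_set]
          calc #C * (#B * 2 ^ #B) ≤ κ * (κ * κ) := by gcongr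
            _ = κ := by rw [Cardinal.mul_eq_self hκ, Cardinal.mul_eq_self hκ]
      _ = κ := Cardinal.mul_eq_self hκ
  refine ⟨Set.range ev, Cardinal.mk_range_le.trans hcardW, ?_⟩
  intro α
  have hch : ∀ b : {b : B // e α b ∈ Set.range ev}, ∃ w, ev w = e α b.1 := fun b => b.2
  choose w hw using hch
  let D : Set B := {b | e α b ∈ Set.range ev}
  let π : B → Option I := fun b => if h : b ∈ D then some (ev (w ⟨b, h⟩)) else none
  have hex : ∃ β, col β = col α ∧ ∀ ξ i, π ξ = some i → e β ξ = i := by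
    refine ⟨α, rfl, ?_⟩
    intro ξ i h
    by_cases hξ : ξ ∈ D
    · simp only [π, dif_pos hξ, Option.some.injEq] at h
      rw [← h, hw]
    · simp [π, dif_neg hξ] at h
  have hG : G π (col α) = hex.choose := dif_pos hex
  refine ⟨G π (col α), ?_, ?_, ?_⟩
  · rw [hG]; exact hex.choose_spec.1
  · intro ξ
    exact ⟨WType.mk (⟨col α, ξ, D⟩ : A) (fun b => w b), rfl⟩
  · intro ξ hξ
    rw [hG]
    rw [hex.choose_spec.2 ξ (ev (w ⟨ξ, hξ⟩)) (dif_pos hξ), hw]

end Pool.Agent.H36.Wall
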