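import Pool.Agent.H36.Wall.Amal

set_option autoImplicit false

/-!
# The gated cube over a large index set is not a regular Wallman compactum
-/

namespace Pool.Agent.H36.Wall

open Cardinal Set TopologicalSpace
open scoped Topology

/-- Two points with coherent enumerations and equal values have a common extension. -/
theorem exists_amalgam {I B : Type} (e e' : B → I) (hpat : ∀ ξ η, e' ξ = e' η ↔ e ξ = e η)
    (hcoh : ∀ ξ η, e ξ = e' η → e' ξ = e ξ) (x x' : X I)
    (hz : ∀ ξ, zc x' (e' ξ) = zc x (e ξ))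
    (hw : ∀ ξ η a, wc x' (e' ξ) (e' η) a = wc x (e ξ) (e η) a) :
    ∃ y : X I, (∀ k ∈ Set.range e, zc x k = zc y k) ∧
      (∀ k ∈ Set.range e, ∀ l ∈ Set.range e, ∀ a, wc x k l a = wc y k l a) ∧
      (∀ k ∈ Set.range e', zc x' k = zc y k) ∧
      (∀ k ∈ Set.range e', ∀ l ∈ Set.range e', ∀ a, wc x' k l a = wc y k l a) := by
  obtain ⟨τ, h1, h2⟩ := exists_tau e e' hpat hcoh
  refine ⟨pull (fun k => (τ k).map e) x, ?_, ?_, ?_, ?_⟩
  · rintro k ⟨ξ₀, rfl⟩
    obtain ⟨ξ, hξ, hξ'⟩ := h1 ξ₀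
    simp only [zc_pull, hξ, Option.map_some, Option.elim_some, hξ']
  · rintro k ⟨ξ₀, rfl⟩ l ⟨η₀, rfl⟩ a
    obtain ⟨ξ, hξ, hξ'⟩ := h1 ξ₀
    obtain ⟨η, hη, hη'⟩ := h1 η₀
    simp only [wc_pull, hξ, hη, Option.map_some, Option.elim_some, hξ', hη']
  · rintro k ⟨ξ₀, rfl⟩
    obtain ⟨ξ, hξ, hξ'⟩ := h2 ξ₀
    simp only [zc_pull, hξ, Option.map_some, Option.elim_some]
    rw [← hz, hξ']
  · rintro k ⟨ξ₀, rfl⟩ l ⟨η₀, rfl⟩ a
    obtain ⟨ξ, hξ, hξ'⟩ := h2 ξ₀
    obtain ⟨η, hη, hη'⟩ := h2 η₀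
    simp only [wc_pull, hξ, hη, Option.map_some, Option.elim_some]
    rw [← hw, hξ', hη']

/-- The constant points. -/
noncomputable def cpt {I : Type} (s : UI) : X I :=
  ⟨(fun _ => s, fun _ _ _ => false), by
    constructor
    · intro i j a b h; simp at h
    · intro i j a h; simp at h⟩

/-- The supports of a disjoint family of countably determined sets lie in a small set. -/
theorem exists_small_support {I : Type} [Nonempty I] (F : Set (Set (X I)))
    (hdisj : F.PairwiseDisjoint id) (hne : ∀ V ∈ F, V.Nonempty)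
    (hdet : ∀ V ∈ F, ∃ e : ℕ → I, Det (Set.range e) V) :
    ∃ M : Set I, #M ≤ 2 ^ Cardinal.continuum ∧ Det M (⋃₀ F) := by
  have hX : Nonempty (X I) := ⟨cpt 0⟩
  choose! x hx using hne
  choose! e he using hdet
  obtain ⟨M, hM, hM2⟩ := exists_closing_color (I := I) (J := F) (B := ℕ) Cardinal.continuum le_rfl
    (by rw [Cardinal.mk_nat]; exact aleph0_le_continuum) (fun V => e V.1) (fun V => x V.1)
  refine ⟨M, hM, ?_⟩
  have hsub : ∀ V ∈ F, Set.range (e V) ⊆ M := by
    intro V hV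
    obtain ⟨V', hpat, hz, hw, hr, hag⟩ := hM2 ⟨V, hV⟩
    simp only at hpat hz hw hr hag
    have hcoh : ∀ ξ η, e V ξ = e V'.1 η → e V'.1 ξ = e V ξ := by
      intro ξ η h
      exact hag ξ (h ▸ hr η)
    obtain ⟨y, y1, y2, y3, y4⟩ := exists_amalgam (e V) (e V'.1) hpat hcoh (x V) (x V'.1) hz hw
    have hyV : y ∈ V := he V hV _ _ y1 y2 (hx V hV)
    have hyV' : y ∈ V'.1 := he V'.1 V'.2 _ _ y3 y4 (hx V'.1 V'.2)
    have hEq : V = V'.1 := by
      by_contra hne
      exact Set.disjoint_left.1 (hdisj hV V'.2 hne) hyV hyV'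
    rintro _ ⟨ξ, rfl⟩
    have := hr ξ
    rwa [← hEq] at this
  intro x y h1 h2 hxU
  obtain ⟨V, hV, hxV⟩ := hxU
  exact ⟨V, hV, (he V hV).mono (hsub V hV) x y h1 h2 hxV⟩

/-- Inside a regular closed set there is a dense open set determined by few coordinates. -/
theorem exists_dense_det {I : Type} [Nonempty I] (A : Set (X I)) (hA : closure (interior A) = A) :
    ∃ U : Set (X I), U ⊆ A ∧ A ⊆ closure U ∧
      ∃ M : Set I, #M ≤ 2 ^ Cardinal.continuum ∧ Det M U := by
  let D : Set (Set (X I)) := {V | IsOpen V ∧ V.Nonempty ∧ V ⊆ A ∧ ∃ e : ℕ → I, Det (Set.range e) V}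
  obtain ⟨F, hF⟩ := zorn_subset {F : Set (Set (X I)) | F ⊆ D ∧ F.PairwiseDisjoint id} (by
    intro c hc hchain
    refine ⟨⋃₀ c, ⟨?_, ?_⟩, fun s hs => Set.subset_sUnion_of_mem hs⟩
    · exact Set.sUnion_subset fun s hs => (hc hs).1
    · rw [Set.pairwiseDisjoint_sUnion hchain.directedOn]
      exact fun s hs => (hc hs).2)
  have hFD : F ⊆ D := hF.prop.1
  have hFdisj : F.PairwiseDisjoint id := hF.prop.2
  refine ⟨⋃₀ F, Set.sUnion_subset fun V hV => (hFD hV).2.2.1, ?_, ?_⟩
  · have hint : interior A ⊆ closure (⋃₀ F) := by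
      intro x hx
      by_contra hxc
      have hopen : IsOpen (interior A \ closure (⋃₀ F)) := isOpen_interior.sdiff isClosed_closure
      have hxm : x ∈ interior A \ closure (⋃₀ F) := ⟨hx, hxc⟩
      obtain ⟨V, hVo, hxV, hVs, hVe⟩ := exists_det_nhd hopen hxm
      have hVD : V ∈ D := ⟨hVo, ⟨x, hxV⟩, hVs.trans (Set.sdiff_subset.trans interior_subset), hVe⟩
      have hVdisj : ∀ W ∈ F, Disjoint V W := by
        intro W hW
        rw [Set.disjoint_left]
        intro y hyV hyW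
        exact (hVs hyV).2 (subset_closure ⟨W, hW, hyW⟩)
      have hins : insert V F ∈ {F : Set (Set (X I)) | F ⊆ D ∧ F.PairwiseDisjoint id} := by
        refine ⟨Set.insert_subset hVD hFD, ?_⟩
        exact hFdisj.insert fun W hW _ => hVdisj W hW
      have hVF : V ∈ F := hF.le_of_ge hins (Set.subset_insert _ _) (Set.mem_insert _ _)
      exact hxc (subset_closure ⟨V, hVF, hxV⟩)
    calc A = closure (interior A) := hA.symm
      _ ⊆ closure (⋃₀ F) := closure_minimal hint isClosed_closure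
  · exact exists_small_support F hFdisj (fun V hV => (hFD hV).2.1) fun V hV => (hFD hV).2.2.2

/-- Separation by members of a lattice containing a closed subbase. -/
theorem exists_sep {Y : Type} [t : TopologicalSpace Y] [CompactSpace Y] (P R : Set (Set Y))
    (ht : t = TopologicalSpace.generateFrom {U : Set Y | Uᶜ ∈ P}) (hPR : P ⊆ R)
    (hu : ∀ A ∈ R, ∀ B ∈ R, A ∪ B ∈ R) (hi : ∀ A ∈ R, ∀ B ∈ R, A ∩ B ∈ R)
    (h0 : ∅ ∈ R) (h1 : Set.univ ∈ R) (hcl : ∀ A ∈ R, IsClosed A)
    {F G : Set Y} (hF : IsClosed F) (hG : IsClosed G) (hFG : Disjoint F G) :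
    ∃ A ∈ R, F ⊆ A ∧ Disjoint A G := by
  have hb := TopologicalSpace.isTopologicalBasis_of_subbasis ht
  have step : ∀ y ∈ G, ∃ C ∈ R, F ⊆ C ∧ y ∉ C := by
    intro y hy
    have hyF : y ∈ Fᶜ := fun h => Set.disjoint_left.1 hFG h hy
    obtain ⟨V, ⟨f, ⟨hf, hfs⟩, rfl⟩, hyV, hVF⟩ := hb.exists_subset_of_mem_open hyF hF.isOpen_compl
    refine ⟨(⋂₀ f)ᶜ, ?_, ?_, fun h => h hyV⟩
    · clear hyV hVF
      induction f, hf using Set.Finite.induction_on with
      | empty => simpa using h0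
      | @insert a s _ _ ih =>
        rw [Set.sInter_insert, Set.compl_inter]
        exact hu _ (hPR (hfs (Set.mem_insert _ _))) _ (ih ((Set.subset_insert _ _).trans hfs))
    · exact Set.subset_compl_comm.1 hVF
  choose! C hCR hFC hyC using step
  obtain ⟨s, hsG, hcov⟩ := hG.isCompact.elim_nhds_subcover (fun y => (C y)ᶜ)
    (fun y hy => (hcl _ (hCR y hy)).isOpen_compl.mem_nhds (hyC y hy))
  refine ⟨⋂ y ∈ s, C y, ?_, ?_, ?_⟩
  · clear hcov
    classical
    induction s using Finset.induction_on with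
    | empty => simpa using h1
    | @insert a s _ ih =>
      rw [Finset.set_biInter_insert]
      exact hi _ (hCR _ (hsG _ (Finset.mem_insert_self _ _))) _
        (ih fun y hy => hsG y (Finset.mem_insert_of_mem hy))
  · exact Set.subset_iInter₂ fun y hy => hFC y (hsG y hy)
  · rw [Set.disjoint_left]
    intro y hyA hyG
    obtain ⟨z, hz, hz'⟩ := Set.mem_iUnion₂.1 (hcov hyG)
    exact hz' (Set.mem_iInter₂.1 hyA z hz)

theorem glue_mem_closure {I B : Type} (e : B → I) (τ : I → Option B)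
    (h1 : ∀ ξ₀, ∃ ξ, τ (e ξ₀) = some ξ ∧ e ξ = e ξ₀) (l g h : I) (c : UI) (hl : l = g ∨ l = h)
    (hle : l ∉ Set.range e) (U : Set (X I)) (hU : Det (Set.range e) U) (x : X I)
    (hx : x ∈ closure U) : glue (fun k => (τ k).map e) l g h c hl x ∈ closure U := by
  have hmap : Set.MapsTo (glue (fun k => (τ k).map e) l g h c hl) U U := by
    intro y hy
    apply hU y _ ?_ ?_ hy
    · rintro k ⟨ξ₀, rfl⟩
      obtain ⟨ξ, hξ, hξ'⟩ := h1 ξ₀
      rw [zc_glue, if_neg (fun h => hle ⟨ξ₀, h⟩)]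
      simp only [hξ, Option.map_some, Option.elim_some, hξ']
    · rintro k ⟨ξ₀, rfl⟩ l' ⟨η₀, rfl⟩ a
      obtain ⟨ξ, hξ, hξ'⟩ := h1 ξ₀
      obtain ⟨η, hη, hη'⟩ := h1 η₀
      rw [wc_glue, if_neg]
      · simp only [hξ, hη, Option.map_some, Option.elim_some, hξ', hη']
      · rintro ⟨e1, e2⟩
        rcases hl with rfl | rfl
        · exact hle ⟨ξ₀, e1⟩
        · exact hle ⟨η₀, e2⟩
  exact hmap.closure (continuous_glue _ _ _ _ _ _) hx

theorem glue_eq {I B : Type} (e e' : B → I) (τ : I → Option B)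
    (h1 : ∀ ξ₀, ∃ ξ, τ (e ξ₀) = some ξ ∧ e ξ = e ξ₀)
    (h2 : ∀ ξ₀, ∃ ξ, τ (e' ξ₀) = some ξ ∧ e' ξ = e' ξ₀) (x x' : X I)
    (hz : ∀ ξ, zc x' (e' ξ) = zc x (e ξ))
    (hw : ∀ ξ η a, wc x' (e' ξ) (e' η) a = wc x (e ξ) (e η) a) (b : B) (g h : I)
    (hl : e' b = g ∨ e' b = h) (hl' : e b = g ∨ e b = h) :
    glue (fun k => (τ k).map e) (e' b) g h (zc x (e b)) hl x =
      glue (fun k => (τ k).map e') (e b) g h (zc x (e b)) hl' x' := by
  classical
  apply X_ext
  · intro k
    rw [zc_glue, zc_glue]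
    have hk : ((τ k).map e').elim 0 (zc x') = ((τ k).map e).elim 0 (zc x) := by
      cases τ k with
      | none => rfl
      | some ξ => exact hz ξ
    have h3 : (if k = e' b then min (zc x (e b)) (((τ k).map e).elim 0 (zc x)) else
        ((τ k).map e).elim 0 (zc x)) = ((τ k).map e).elim 0 (zc x) := by
      split_ifs with hkb
      · obtain ⟨ξ, hξ, hξ'⟩ := h2 b
        rw [hkb, hξ]
        simp only [Option.map_some, Option.elim_some]
        rw [← hz ξ, hξ', hz b, min_self]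
      · rfl
    have h4 : (if k = e b then min (zc x (e b)) (((τ k).map e).elim 0 (zc x)) else
        ((τ k).map e).elim 0 (zc x)) = ((τ k).map e).elim 0 (zc x) := by
      split_ifs with hkb
      · obtain ⟨ξ, hξ, hξ'⟩ := h1 b
        rw [hkb, hξ]
        simp only [Option.map_some, Option.elim_some]
        rw [hξ', min_self]
      · rfl
    rw [hk, h3, h4]
  · intro i j a
    rw [wc_glue, wc_glue]
    split_ifs with hij
    · rfl
    · cases τ i with
      | none => rfl
      | some ξ =>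
        cases τ j with
        | none => rfl
        | some η => exact (hw ξ η a).symm

/-- The large index set. -/
abbrev IX : Type := Set (Set (Set ℝ))

theorem exists_enum (M : Set IX) (hM : #M ≤ 2 ^ Cardinal.continuum) (i : IX) :
    ∃ e : Option (Set ℝ) → IX, e none = i ∧ M ⊆ Set.range e := by
  have h : #M ≤ #(Set ℝ) := by rwa [Cardinal.mk_set, Cardinal.mk_real]
  obtain ⟨f⟩ := h
  refine ⟨fun o => o.elim i (Function.extend f Subtype.val fun _ => i), rfl, ?_⟩
  intro m hm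
  refine ⟨some (f ⟨m, hm⟩), ?_⟩
  show Function.extend f Subtype.val (fun _ => i) (f ⟨m, hm⟩) = m
  rw [f.injective.extend_apply]

theorem not_regular_wallman : ¬ (∃ P : Set (Set (X IX)),
      (∀ A ∈ P, IsClosed A) ∧
      (instTopologicalSpaceSubtype : TopologicalSpace (X IX)) =
        TopologicalSpace.generateFrom {U : Set (X IX) | Uᶜ ∈ P} ∧
      (∀ A : Set (X IX),
        (∀ S : Set (Set (X IX)), P ⊆ S →
          (∀ B ∈ S, ∀ C ∈ S, B ∪ C ∈ S) →
          (∀ B ∈ S, ∀ C ∈ S, B ∩ C ∈ S) → A ∈ S) →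
        closure (interior A) = A)) := by
  rintro ⟨P, -, ht, hreg⟩
  -- the lattice generated by `P`, with the trivial sets added
  let L : Set (Set (X IX)) := {A | ∀ S : Set (Set (X IX)), P ⊆ S →
          (∀ B ∈ S, ∀ C ∈ S, B ∪ C ∈ S) → (∀ B ∈ S, ∀ C ∈ S, B ∩ C ∈ S) → A ∈ S}
  let R : Set (Set (X IX)) := {A | A = ∅ ∨ A = Set.univ ∨ A ∈ L}
  have hLu : ∀ A ∈ L, ∀ B ∈ L, A ∪ B ∈ L := fun A hA B hB S h1 h2 h3 =>
    h2 _ (hA S h1 h2 h3) _ (hB S h1 h2 h3)
  have hLi : ∀ A ∈ L, ∀ B ∈ L, A ∩ B ∈ L := fun A hA B hB S h1 h2 h3 =>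
    h3 _ (hA S h1 h2 h3) _ (hB S h1 h2 h3)
  have hPR : P ⊆ R := fun A hA => Or.inr (Or.inr fun S h1 _ _ => h1 hA)
  have h0 : ∅ ∈ R := Or.inl rfl
  have h1 : Set.univ ∈ R := Or.inr (Or.inl rfl)
  have hRu : ∀ A ∈ R, ∀ B ∈ R, A ∪ B ∈ R := by
    rintro A (rfl | rfl | hA) B (rfl | rfl | hB)
    · rw [Set.union_self]; exact h0
    · rw [Set.union_univ]; exact h1
    · rw [Set.empty_union]; exact Or.inr (Or.inr hB)
    · rw [Set.union_empty]; exact h1
    · rw [Set.union_univ]; exact h1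
    · rw [Set.univ_union]; exact h1
    · rw [Set.union_empty]; exact Or.inr (Or.inr hA)
    · rw [Set.union_univ]; exact h1
    · exact Or.inr (Or.inr (hLu A hA B hB))
  have hRi : ∀ A ∈ R, ∀ B ∈ R, A ∩ B ∈ R := by
    rintro A (rfl | rfl | hA) B (rfl | rfl | hB)
    · rw [Set.inter_self]; exact h0
    · rw [Set.inter_univ]; exact h0
    · rw [Set.empty_inter]; exact h0
    · rw [Set.inter_empty]; exact h0
    · rw [Set.inter_univ]; exact h1
    · rw [Set.univ_inter]; exact Or.inr (Or.inr hB)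
    · rw [Set.inter_empty]; exact h0
    · rw [Set.inter_univ]; exact Or.inr (Or.inr hA)
    · exact Or.inr (Or.inr (hLi A hA B hB))
  have hRreg : ∀ A ∈ R, closure (interior A) = A := by
    rintro A (rfl | rfl | hA)
    · simp
    · simp
    · exact hreg A hA
  have hRcl : ∀ A ∈ R, IsClosed A := by
    intro A hA
    rw [← hRreg A hA]
    exact isClosed_closure
  clear_value R
  -- members of the lattice separating `z i = 1` from `z i = 0`
  have hsep : ∀ i : IX, ∃ A ∈ R, {x : X IX | zc x i = 1} ⊆ A ∧ Disjoint A {x : X IX | zc x i = 0} := by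
    intro i
    apply exists_sep P R ht hPR hRu hRi h0 h1 hRcl
    · exact isClosed_eq (continuous_zc i) continuous_const
    · exact isClosed_eq (continuous_zc i) continuous_const
    · rw [Set.disjoint_left]
      intro x hx hx'
      have e1 : zc x i = 1 := hx
      have e2 : zc x i = 0 := hx'
      rw [e1] at e2
      exact one_ne_zero e2
  choose A hAR hA1 hA0 using hsep
  have hdd : ∀ i : IX, ∃ (U : Set (X IX)) (e : Option (Set ℝ) → IX), U ⊆ A i ∧ A i ⊆ closure U ∧
      e none = i ∧ Det (Set.range e) U := by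
    intro i
    obtain ⟨U, hU1, hU2, M, hM, hdet⟩ := exists_dense_det (A i) (hRreg _ (hAR i))
    obtain ⟨e, he1, he2⟩ := exists_enum M hM i
    exact ⟨U, e, hU1, hU2, he1, hdet.mono he2⟩
  choose U e hUA hAU he hdet using hdd
  have hmin : ∀ i : IX, ∃ x ∈ A i, IsMinOn (fun x => zc x i) (A i) x := by
    intro i
    apply (hRcl _ (hAR i)).isCompact.exists_isMinOn
    · exact ⟨cpt 1, hA1 i rfl⟩
    · exact (continuous_zc i).continuousOn
  choose x hxA hxmin using hmin
  -- two coordinates with the same type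
  have hμ : Cardinal.continuum ≤ (2 : Cardinal) ^ Cardinal.continuum := (Cardinal.cantor _).le
  have hω : ℵ₀ ≤ (2 : Cardinal) ^ Cardinal.continuum := aleph0_le_continuum.trans hμ
  obtain ⟨M, hM, hM2⟩ := exists_closing_color (I := IX) (J := IX) (B := Option (Set ℝ))
    (2 ^ Cardinal.continuum) hμ (by
      rw [Cardinal.mk_option, Cardinal.mk_set, Cardinal.mk_real]
      exact (Cardinal.add_one_eq hω).le) e x
  have hex : ∃ α : IX, α ∉ M := by
    by_contra hcon
    push Not at hcon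
    have hMu : M = Set.univ := Set.eq_univ_of_forall hcon
    rw [hMu, Cardinal.mk_univ, Cardinal.mk_set, Cardinal.mk_set, Cardinal.mk_set,
      Cardinal.mk_real] at hM
    exact absurd (Cardinal.cantor _) (not_lt.2 hM)
  obtain ⟨α, hα⟩ := hex
  obtain ⟨β, hpat, hz, hw, hr, hag⟩ := hM2 α
  have hcoh : ∀ ξ η, e α ξ = e β η → e β ξ = e α ξ := by
    intro ξ η h
    exact hag ξ (h ▸ hr η)
  have hβM : β ∈ M := by
    have := hr none
    rwa [he] at this
  have hαβ : α ≠ β := fun h => hα (h ▸ hβM)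
  have hα' : α ∉ Set.range (e β) := by
    rintro ⟨ξ, hξ⟩
    exact hα (hξ ▸ hr ξ)
  have hβ' : β ∉ Set.range (e α) := by
    rintro ⟨ξ, hξ⟩
    have e1 : e α ξ = e β none := by rw [hξ, he]
    have e2 := hcoh ξ none e1
    have e3 : e β ξ = e β none := e2.trans e1
    have e4 := (hpat _ _).1 e3
    rw [he, hξ] at e4
    exact hαβ e4.symm
  obtain ⟨τ, hτ1, hτ2⟩ := exists_tau (e α) (e β) hpat hcoh
  -- the common minimal value
  have hval : zc (x β) β = zc (x α) α := by
    have := hz none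
    rwa [he, he] at this
  have hpos : (0 : UI) < zc (x α) α := by
    rw [pos_iff_ne_zero]
    intro h
    exact Set.disjoint_left.1 (hA0 α) (hxA α) h
  -- the glued point
  have hp1 := glue_mem_closure (e α) τ hτ1 β α β (zc (x α) α) (Or.inr rfl) hβ' (U α) (hdet α)
    (x α) (hAU α (hxA α))
  have hp2 := glue_mem_closure (e β) τ hτ2 α α β (zc (x α) α) (Or.inl rfl) hα' (U β) (hdet β)
    (x β) (hAU β (hxA β))
  have hclU : ∀ i, closure (U i) ⊆ A i := fun i => closure_minimal (hUA i) (hRcl _ (hAR i))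
  have hglue := glue_eq (e α) (e β) τ hτ1 hτ2 (x α) (x β) hz hw none α β
    (Or.inr (he β)) (Or.inl (he α))
  set p := glue (fun k => (τ k).map (e α)) β α β (zc (x α) α) (Or.inr rfl) (x α) with hp
  have hpA : p ∈ A α := hclU α hp1
  have hpB : p ∈ A β := by
    apply hclU β
    convert hp2 using 1
    rw [hp]
    simp only [he] at hglue
    exact hglue
  have hgate : wc p α β (zc (x α) α) = true := by
    rw [hp, wc_glue, if_pos ⟨rfl, rfl⟩]
    simp
  -- an interior point of the intersection with the gate on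
  have hint : p ∈ closure (interior (A α ∩ A β)) := by
    rw [hRreg _ (hRi _ (hAR α) _ (hAR β))]
    exact ⟨hpA, hpB⟩
  obtain ⟨q, hq1, hq2⟩ := mem_closure_iff.1 hint {y : X IX | wc y α β (zc (x α) α) = true}
    (isClopen_w α β (zc (x α) α) true).isOpen hgate
  have hq : q ∈ A α ∩ A β := interior_subset hq2
  have key : ∀ l : IX, (∀ y ∈ A α ∩ A β, zc (x α) α ≤ zc y l) → ¬ zc q l ≤ zc (x α) α := by
    intro l hl hle
    have hcont : Continuous fun s : UI => low l s q :=
      (continuous_low l).comp (continuous_id.prodMk continuous_const)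
    have hq3 : low l (zc (x α) α) q = q := by
      apply X_ext
      · intro k
        rw [zc_low]
        split_ifs with hk
        · rw [hk]
          exact le_antisymm (min_le_right _ _) (le_min hle le_rfl)
        · rfl
      · intro i j a
        rfl
    have hopen : IsOpen ((fun s : UI => low l s q) ⁻¹' interior (A α ∩ A β)) :=
      isOpen_interior.preimage hcont
    have hmem : zc (x α) α ∈ (fun s : UI => low l s q) ⁻¹' interior (A α ∩ A β) := by
      show low l (zc (x α) α) q ∈ interior (A α ∩ A β)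
      rw [hq3]; exact hq2
    obtain ⟨s, hs, hs'⟩ := exists_Ioc_subset_of_mem_nhds (hopen.mem_nhds hmem) ⟨0, hpos⟩
    obtain ⟨r, hr1, hr2⟩ := exists_between hs
    have hr3 : low l r q ∈ interior (A α ∩ A β) := hs' ⟨hr1, hr2.le⟩
    have hr4 := hl _ (interior_subset hr3)
    rw [zc_low, if_pos rfl] at hr4
    exact absurd (hr4.trans (min_le_left _ _)) (not_le.2 hr2)
  rcases wc_gate q hq1 with h | h
  · exact key α (fun y hy => hxmin α hy.1) h
  · refine key β (fun y hy => ?_) h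
    rw [← hval]
    exact hxmin β hy.2

end Pool.Agent.H36.Wall
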